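import Pool.Agent.Helper78.ConvOrb

set_option autoImplicit false

namespace Pool.Agent.Results.MP_ced77a_an.EigenvalueCriterion

/-- Rezaei's question with a sharp criterion. Let `T` be a bounded operator on a complex normed
space and let the convex hull of the orbit of `x` be somewhere dense. Then this convex hull is
dense if and only if every eigenvalue of the adjoint `T* : φ ↦ φ ∘ T` has modulus greater than one
and is not real; in particular it is dense if the adjoint has no eigenvalues. -/
theorem result {X : Type*} [NormedAddCommGroup X] [NormedSpace ℂ X] (T : X →L[ℂ] X) (x : X)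
    (h : (interior (closure (convexHull ℝ (Set.range fun n : ℕ => (T ^ n) x)))).Nonempty) :
    Dense (convexHull ℝ (Set.range fun n : ℕ => (T ^ n) x)) ↔
      ∀ (c : ℂ) (φ : X →L[ℂ] ℂ), φ ≠ 0 → φ.comp T = c • φ → 1 < ‖c‖ ∧ c.im ≠ 0 := by
  constructor
  · intro hd c φ hφ hc
    constructor
    · by_contra h1
      exact Helper78.ConvOrb.not_dense_of_eigen T x c φ (Or.inl (not_lt.mp h1)) hc hφ hd
    · intro h1
      exact Helper78.ConvOrb.not_dense_of_eigen T x c φ (Or.inr h1) hc hφ hd
  · intro hall
    by_contra hd
    rw [dense_iff_closure_eq] at hd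
    obtain ⟨c, φ, hc, h1, h2⟩ := Helper78.ConvOrb.exists_eigen T x h hd
    obtain ⟨h3, h4⟩ := hall c φ h2 h1
    rcases hc with hc | hc
    · linarith
    · exact h4 hc

end Pool.Agent.Results.MP_ced77a_an.EigenvalueCriterion
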